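import Pool.Agent.TH140.MR.Typical

/-!
# Real tensors of format `n × n × n` have `O(n)` typical ranks

All typical ranks of the real tensors of format `n × n × n` lie in a window of length
`14 n / 3 + 8` above `n ^ 2 / 3`.
-/

set_option autoImplicit false

namespace Pool.Agent.Results.MP_b12e0e_ag.TypicalRankWindow

open Pool.Agent.TH140.MR

theorem result (n : ℕ) :
    (∀ r : ℕ, IsTypicalRank (fun _ : Fin 3 => n) r →
      (n : ℝ) ^ 2 / 3 ≤ r ∧ (r : ℝ) ≤ (n : ℝ) ^ 2 / 3 + 14 * n / 3 + 8) ∧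
    ({r : ℕ | IsTypicalRank (fun _ : Fin 3 => n) r}.ncard : ℝ) ≤ 14 * n / 3 + 9 :=
  ⟨fun r h => typical_cube n r h, ncard_typical_cube n⟩

end Pool.Agent.Results.MP_b12e0e_ag.TypicalRankWindow
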